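import Mathlib

/-! The space of continuous real functions on the Stone-Cech compactification of the discrete
space of size aleph one, with the pointwise topology, is not submetalindelof. -/

namespace Pool.Agent.H940Z.Cp

open Set Filter Topology

/-- a well-order of type omega one -/
structure Om (W : Type) [LinearOrder W] : Prop where
  wf : WellFoundedLT W
  ctbl : ∀ a : W, (Iic a).Countable
  unc : ¬ (univ : Set W).Countable

theorem exists_Om : ∃ (W : Type) (_ : LinearOrder W), Om W := by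
  have h1 : Cardinal.aleph 1 ≤ Cardinal.mk ℝ := by
    rw [Cardinal.mk_real]; exact Cardinal.aleph_one_le_continuum
  obtain ⟨T, hT⟩ := Cardinal.le_mk_iff_exists_set.1 h1
  obtain ⟨lo, wf, hord⟩ := Cardinal.exists_ord_eq_type_lt ↥T
  refine ⟨↥T, lo, @Om.mk _ lo wf ?_ ?_⟩
  · intro a
    have h3 := @Cardinal.mk_Iio_lt _ lo wf a hord
    have h4 : (@Iio _ lo.toPreorder a).Countable := by
      rw [← Cardinal.le_aleph0_iff_set_countable, ← Order.lt_succ_iff, Cardinal.succ_aleph0]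
      exact h3.trans_le hT.le
    rw [← @Iio_insert _ lo.toPartialOrder a]
    exact h4.insert a
  · intro hc
    have h5 : Countable ↥T := countable_univ_iff.1 hc
    have h6 : Cardinal.mk ↥T ≤ Cardinal.aleph0 := Cardinal.mk_le_aleph0
    rw [hT] at h6
    exact absurd h6 (not_le.2 Cardinal.aleph0_lt_aleph_one)

variable {W : Type} [LinearOrder W]

theorem bdd (h : Om W) {S : Set W} (hS : S.Countable) : ∃ x, ∀ s ∈ S, s < x := by
  by_contra hc
  push Not at hc
  apply h.unc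
  refine (hS.biUnion (fun s _ => h.ctbl s)).mono ?_
  intro x _
  obtain ⟨s, hs, hxs⟩ := hc x
  exact mem_biUnion hs hxs

theorem exists_cl (h : Om W) (g : W → W) (a : W) : ∃ α, a < α ∧ ∀ β < α, g β < α := by
  have := h.wf
  have h1 : ∀ x : W, ∃ y, x < y ∧ ∀ β ≤ x, g β < y := by
    intro x
    obtain ⟨y, hy⟩ := bdd h (((h.ctbl x).image g).insert x)
    exact ⟨y, hy x (mem_insert _ _), fun β hβ => hy _ (mem_insert_of_mem _ ⟨β, hβ, rfl⟩)⟩
  choose f hf1 hf2 using h1
  let u : ℕ → W := fun n => f^[n] a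
  have hu : ∀ n, u (n + 1) = f (u n) := fun n => Function.iterate_succ_apply' f n a
  obtain ⟨z, hz⟩ := bdd h (countable_range u)
  let T : Set W := {x | ∀ n, u n < x}
  have hT : T.Nonempty := ⟨z, fun n => hz _ ⟨n, rfl⟩⟩
  let α := wellFounded_lt.min T hT
  have hα : α ∈ T := wellFounded_lt.min_mem T hT
  refine ⟨α, hα 0, fun β hβ => ?_⟩
  have h3 : β ∉ T := fun hb => wellFounded_lt.not_lt_min T hb hβ
  have h4 : ∃ n, β ≤ u n := by
    by_contra hc
    push Not at hc
    exact h3 hc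
  obtain ⟨n, hn⟩ := h4
  have h2 := hf2 (u n) β hn
  rw [← hu] at h2
  exact h2.trans (hα _)

/-- weak pressing down -/
theorem press (h : Om W) (g : W → W) (a : W) (hg : ∀ γ, a < γ → g γ < γ) :
    ∃ δ, ∀ b, ∃ γ, b < γ ∧ g γ ≤ δ := by
  by_contra hc
  push Not at hc
  choose b hb using hc
  obtain ⟨α, h1, h2⟩ := exists_cl h b a
  exact lt_irrefl _ (hb (g α) α (h2 _ (hg α h1)))

/-- a sparse increasing sequence -/
theorem exists_seq (h : Om W) (H : W → W) (a : W) :
    ∃ c : W → W, (∀ j, a < c j) ∧ ∀ i j, i < j → H (c i) < c j := by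
  have := h.wf
  have h1 : ∀ (j : W) (r : ∀ i, i < j → W), ∃ y, a < y ∧ ∀ i (hi : i < j), H (r i hi) < y := by
    intro j r
    have hc : (Iio j).Countable := (h.ctbl j).mono Iio_subset_Iic_self
    have := hc.to_subtype
    obtain ⟨y, hy⟩ := bdd h ((countable_range (fun i : Iio j => H (r i.1 i.2))).insert a)
    exact ⟨y, hy a (mem_insert _ _), fun i hi => hy _ (mem_insert_of_mem _ ⟨⟨i, hi⟩, rfl⟩)⟩
  choose F hF1 hF2 using h1
  let c : W → W := wellFounded_lt.fix F
  have hc : ∀ j, c j = F j (fun i _ => c i) := fun j => wellFounded_lt.fix_eq F j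
  refine ⟨c, fun j => ?_, fun i j hij => ?_⟩
  · rw [hc]; exact hF1 _ _
  · rw [hc j]; exact hF2 j (fun i _ => c i) i hij

/-- a selector avoiding aleph one many uniform ultrafilters -/
theorem avoid (h : Om W) (u : W → Set (Ultrafilter W)) (hu : ∀ i, (u i).Countable)
    (I : W → W → Set W) (hI : ∀ a b, (I a b).Countable)
    (hd : ∀ a b a' b' x, x ∈ I a b → x ∈ I a' b' → a = a' ∧ b = b') :
    ∃ φ : W → W, ∀ i, ∀ v ∈ u i, (∀ s ∈ v, ¬ s.Countable) → (⋃ a, I a (φ a)) ∉ v := by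
  have h1 : ∀ v : Ultrafilter W, ∃ ψ : W → W,
      (∃ φ : W → W, (⋃ a, I a (φ a)) ∈ v) → (⋃ a, I a (ψ a)) ∈ v := by
    intro v
    by_cases hv : ∃ φ : W → W, (⋃ a, I a (φ a)) ∈ v
    · obtain ⟨φ, hφ⟩ := hv
      exact ⟨φ, fun _ => hφ⟩
    · exact ⟨id, fun h' => absurd h' hv⟩
  choose ψ hψ using h1
  have h2 : ∀ a : W, ∃ y, ∀ i ≤ a, ∀ v ∈ u i, ψ v a ≠ y := by
    intro a
    have hc : (⋃ i ∈ Iic a, (fun v => ψ v a) '' u i).Countable :=
      (h.ctbl a).biUnion (fun i _ => (hu i).image _)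
    obtain ⟨y, hy⟩ := bdd h hc
    exact ⟨y, fun i hi v hv => (hy _ (mem_biUnion hi ⟨v, hv, rfl⟩)).ne⟩
  choose φ hφ using h2
  refine ⟨φ, fun i v hv hunif hmem => ?_⟩
  have h3 := hψ v ⟨φ, hmem⟩
  apply hunif _ (inter_mem hmem h3)
  refine ((h.ctbl i).biUnion (fun a _ => hI a (φ a))).mono ?_
  rintro x ⟨hx1, hx2⟩
  obtain ⟨a, ha⟩ := mem_iUnion.1 hx1
  obtain ⟨a', ha'⟩ := mem_iUnion.1 hx2
  obtain ⟨rfl, h5⟩ := hd _ _ _ _ _ ha ha'
  refine mem_biUnion (?_ : a ∈ Iic i) ha
  by_contra hc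
  exact hφ a i (not_le.1 hc).le v hv h5.symm

/-- the combinatorial core -/
theorem core (h : Om W) (s : ℕ → W → Finset (Ultrafilter W)) (α : ℕ → W → W) :
    ∃ (B : Set W) (γ : ℕ → W → W), (∀ n a, ∀ u ∈ s n (γ n a), (B ∈ u ↔ Iio (γ n a) ∈ u)) ∧
      ∀ n a a', a ≠ a' → α n (γ n a) < γ n a' ∨ α n (γ n a') < γ n a := by
  classical
  have hne : Nonempty W := by
    by_contra hc
    rw [not_nonempty_iff] at hc
    exact h.unc (Set.to_countable _)
  obtain ⟨a0⟩ := hne
  have hinf : Infinite W := by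
    by_contra hc
    rw [not_infinite_iff_finite] at hc
    exact h.unc (Set.to_countable _)
  -- regressive bounds
  have h1 : ∀ n γ, ∃ g, (a0 < γ → g < γ) ∧
      ∀ u ∈ s n γ, (∃ β < γ, Iic β ∈ u) → Iic g ∈ u := by
    intro n γ
    have h2 : ∀ t : Finset (Ultrafilter W), ∃ g, (a0 < γ → g < γ) ∧
        ∀ u ∈ t, (∃ β < γ, Iic β ∈ u) → Iic g ∈ u := by
      intro t
      induction t using Finset.induction_on with
      | empty => exact ⟨a0, id, fun u hu => absurd hu (Finset.notMem_empty u)⟩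
      | insert v t _ ih =>
        obtain ⟨g, hg1, hg2⟩ := ih
        by_cases hv : ∃ β < γ, Iic β ∈ v
        · obtain ⟨β, hβ1, hβ2⟩ := hv
          refine ⟨max g β, fun h' => max_lt (hg1 h') hβ1, fun u hu hu' => ?_⟩
          rcases Finset.mem_insert.1 hu with rfl | hu
          · exact mem_of_superset hβ2 (Iic_subset_Iic.2 (le_max_right _ _))
          · exact mem_of_superset (hg2 u hu hu') (Iic_subset_Iic.2 (le_max_left _ _))
        · refine ⟨g, hg1, fun u hu hu' => ?_⟩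
          rcases Finset.mem_insert.1 hu with rfl | hu
          · exact absurd hu' hv
          · exact hg2 u hu hu'
    exact h2 _
  choose g hg1 hg2 using h1
  have h3 : ∀ n, ∃ δ, ∀ b, ∃ γ, b < γ ∧ g n γ ≤ δ := fun n => press h (g n) a0 (hg1 n)
  choose δ' Γ hΓ1 hΓ2 using h3
  obtain ⟨δ, hδ⟩ := bdd h (countable_range δ')
  -- bounds for non-uniform ultrafilters
  have h4 : ∀ u : Ultrafilter W, ∃ b, (∃ t ∈ u, t.Countable) → Iio b ∈ u := by
    intro u
    by_cases hu : ∃ t ∈ u, t.Countable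
    · obtain ⟨t, ht1, ht2⟩ := hu
      obtain ⟨b, hb⟩ := bdd h ht2
      exact ⟨b, fun _ => mem_of_superset ht1 hb⟩
    · exact ⟨a0, fun h' => absurd h' hu⟩
  choose bd hbd using h4
  have h5 : ∀ β : W, ∃ y, ∀ n, Γ n β < y ∧ α n (Γ n β) < y ∧ ∀ u ∈ s n (Γ n β), bd u < y := by
    intro β
    have hc : ((range fun n => Γ n β) ∪ (range fun n => α n (Γ n β)) ∪
        ⋃ n, bd '' (s n (Γ n β) : Set (Ultrafilter W))).Countable :=
      ((countable_range _).union (countable_range _)).union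
        (countable_iUnion (fun n => (Finset.countable_toSet _).image _))
    obtain ⟨y, hy⟩ := bdd h hc
    exact ⟨y, fun n => ⟨hy _ (Or.inl (Or.inl ⟨n, rfl⟩)), hy _ (Or.inl (Or.inr ⟨n, rfl⟩)),
      fun u hu => hy _ (Or.inr (mem_iUnion.2 ⟨n, u, hu, rfl⟩))⟩⟩
  choose H hH using h5
  obtain ⟨c, hc1, hc2⟩ := exists_seq h H δ
  have h6 : ∃ e : W × W × ℕ → W, Function.Injective e := by
    have : Cardinal.mk (W × W × ℕ) ≤ Cardinal.mk W := by
      simp only [Cardinal.mk_prod, Cardinal.lift_id, Cardinal.mk_nat]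
      have h7 : Cardinal.aleph0 ≤ Cardinal.mk W := Cardinal.aleph0_le_mk W
      rw [Cardinal.mul_eq_left h7 h7 Cardinal.aleph0_ne_zero, Cardinal.mul_eq_self h7]
    obtain ⟨e⟩ := (Cardinal.le_def _ _).1 this
    exact ⟨e, e.injective⟩
  obtain ⟨e, he⟩ := h6
  let J : W × W × ℕ → Set W := fun p => Ioo (c (e p)) (Γ p.2.2 (c (e p)))
  have hJ : ∀ p q, e p < e q → ∀ x ∈ J p, ∀ y ∈ J q, x < y := by
    intro p q hpq x hx y hy
    exact hx.2.trans (((hH _ _).1.trans (hc2 _ _ hpq)).trans hy.1)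
  have hJd : ∀ p q x, x ∈ J p → x ∈ J q → p = q := by
    intro p q x hp hq
    apply he
    rcases lt_trichotomy (e p) (e q) with h' | h' | h'
    · exact absurd (hJ p q h' x hp x hq) (lt_irrefl _)
    · exact h'
    · exact absurd (hJ q p h' x hq x hp) (lt_irrefl _)
  obtain ⟨φ, hφ⟩ := avoid h (fun i => ⋃ n, (s n i : Set (Ultrafilter W)))
    (fun i => countable_iUnion (fun n => Finset.countable_toSet _))
    (fun a b => ⋃ n, J (a, b, n))
    (fun a b => countable_iUnion (fun n => (h.ctbl _).mono (fun x hx => le_of_lt hx.2)))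
    (by
      intro a b a' b' x hx hx'
      obtain ⟨n, hn⟩ := mem_iUnion.1 hx
      obtain ⟨n', hn'⟩ := mem_iUnion.1 hx'
      have := hJd _ _ _ hn hn'
      simp only [Prod.mk.injEq] at this
      exact ⟨this.1, this.2.1⟩)
  refine ⟨Iic δ ∪ ⋃ a, ⋃ n, J (a, φ a, n), fun n a => Γ n (c (e (a, φ a, n))), ?_, ?_⟩
  · intro n a u hu
    set β := c (e (a, φ a, n)) with hβ
    constructor
    · intro hB
      by_contra hn
      by_cases hun : ∃ t ∈ u, t.Countable
      · have h7 : Iio (bd u) ∈ u := hbd u hun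
        have h8 : (Iio (Γ n β))ᶜ ∈ u := Ultrafilter.compl_mem_iff_notMem.2 hn
        obtain ⟨x, ⟨hx1, hx2⟩, hx3⟩ := u.nonempty_of_mem (inter_mem (inter_mem hB h7) h8)
        apply hx3
        rcases hx1 with hx1 | hx1
        · exact lt_of_le_of_lt hx1 ((hc1 _).trans (hΓ1 n β))
        · obtain ⟨a', hx1⟩ := mem_iUnion.1 hx1
          obtain ⟨n', hx1⟩ := mem_iUnion.1 hx1
          rcases lt_trichotomy (e (a', φ a', n')) (e (a, φ a, n)) with h' | h' | h'
          · exact hx1.2.trans (((hH _ _).1.trans (hc2 _ _ h')).trans (hΓ1 n β))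
          · have h9 := he h'
            have h10 : x ∈ J (a, φ a, n) := h9 ▸ hx1
            exact h10.2
          · exfalso
            have h11 : bd u < H β := (hH β n).2.2 u hu
            exact lt_irrefl _ ((hx2.trans (h11.trans (hc2 _ _ h'))).trans hx1.1)
      · push Not at hun
        rcases Ultrafilter.union_mem_iff.1 hB with h' | h'
        · exact hun _ h' (h.ctbl δ)
        · exact hφ (Γ n β) u (mem_iUnion.2 ⟨n, hu⟩) hun h'
    · intro hI
      by_cases hb : ∃ β' < Γ n β, Iic β' ∈ u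
      · have h7 := hg2 n _ u hu hb
        refine mem_of_superset h7 (fun x hx => Or.inl ?_)
        exact le_trans hx ((hΓ2 n β).trans (hδ _ ⟨n, rfl⟩).le)
      · push Not at hb
        have h8 : (Iic β)ᶜ ∈ u := Ultrafilter.compl_mem_iff_notMem.2 (hb β (hΓ1 n β))
        refine mem_of_superset (inter_mem hI h8) (fun x hx => Or.inr ?_)
        exact mem_iUnion.2 ⟨a, mem_iUnion.2 ⟨n, not_le.1 hx.2, hx.1⟩⟩
  · intro n a a' haa
    rcases lt_trichotomy (e (a, φ a, n)) (e (a', φ a', n)) with h' | h' | h'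
    · exact Or.inl (((hH _ _).2.1.trans (hc2 _ _ h')).trans (hΓ1 n _))
    · have := he h'
      simp only [Prod.mk.injEq] at this
      exact absurd this.1 haa
    · exact Or.inr (((hH _ _).2.1.trans (hc2 _ _ h')).trans (hΓ1 n _))

/-- the continuous indicator function of a basic clopen set of ultrafilters -/
noncomputable def chi (A : Set W) : {g : Ultrafilter W → ℝ // Continuous g} :=
  ⟨Set.indicator {u | A ∈ u} (fun _ => (1 : ℝ)),
    IsClopen.continuous_indicator ⟨ultrafilter_isClosed_basic A, ultrafilter_isOpen_basic A⟩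
      continuous_const⟩

omit [LinearOrder W] in
theorem chi_congr {A B : Set W} {u : Ultrafilter W} (h : A ∈ u ↔ B ∈ u) :
    (chi A).1 u = (chi B).1 u := by
  classical
  simp only [chi, Set.indicator_apply, mem_ofPred_eq, h]

omit [LinearOrder W] in
theorem fin_supp {V : Set {g : Ultrafilter W → ℝ // Continuous g}} (hV : IsOpen V)
    {x : {g : Ultrafilter W → ℝ // Continuous g}} (hx : x ∈ V) :
    ∃ s : Finset (Ultrafilter W), ∀ y : {g : Ultrafilter W → ℝ // Continuous g},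
      (∀ u ∈ s, y.1 u = x.1 u) → y ∈ V := by
  obtain ⟨O, hO, rfl⟩ := isOpen_induced_iff.1 hV
  obtain ⟨I, t, ht1, ht2⟩ := isOpen_pi_iff.1 hO x.1 hx
  refine ⟨I, fun y hy => ht2 (fun u hu => ?_)⟩
  rw [hy u hu]
  exact (ht1 u hu).2

theorem not_sub (h : Om W) :
    ∃ 𝒰 : Set (Set {g : Ultrafilter W → ℝ // Continuous g}),
      (∀ U ∈ 𝒰, IsOpen U) ∧ ⋃₀ 𝒰 = Set.univ ∧
      ¬ ∃ 𝒱 : ℕ → Set (Set {g : Ultrafilter W → ℝ // Continuous g}),
          (∀ n, ∀ V ∈ 𝒱 n, IsOpen V ∧ ∃ U ∈ 𝒰, V ⊆ U) ∧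
          (∀ n, ⋃₀ 𝒱 n = Set.univ) ∧
          ∀ x : {g : Ultrafilter W → ℝ // Continuous g}, ∃ n, {V ∈ 𝒱 n | x ∈ V}.Countable := by
  classical
  have hnb : (cocountable : Filter W).NeBot := by
    refine ⟨fun hb => h.unc ?_⟩
    have h0 : (∅ : Set W) ∈ (cocountable : Filter W) := by rw [hb]; exact mem_bot
    rw [mem_cocountable, compl_empty] at h0
    exact h0
  let p : Ultrafilter W := Ultrafilter.of (cocountable : Filter W)
  have hp : ∀ t : Set W, t.Countable → t ∉ p := by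
    intro t ht hmem
    have h0 : tᶜ ∈ (cocountable : Filter W) := by
      rw [mem_cocountable, compl_compl]; exact ht
    have h1 : tᶜ ∈ p := Ultrafilter.of_le (cocountable : Filter W) h0
    exact Ultrafilter.compl_mem_iff_notMem.1 h1 hmem
  let U : W → Set {g : Ultrafilter W → ℝ // Continuous g} :=
    fun a => {f | |f.1 (pure a) - f.1 p| < 1 / 2}
  refine ⟨range U, ?_, ?_, ?_⟩
  · rintro _ ⟨a, rfl⟩
    have h1 : Continuous (fun f : {g : Ultrafilter W → ℝ // Continuous g} =>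
        |f.1 (pure a) - f.1 p|) :=
      (((continuous_apply (pure a)).comp continuous_subtype_val).sub
        ((continuous_apply p).comp continuous_subtype_val)).abs
    exact isOpen_lt h1 continuous_const
  · refine eq_univ_of_forall (fun f => ?_)
    have h1 : Tendsto (fun a => f.1 (pure a)) p (𝓝 (f.1 p)) :=
      (f.2.tendsto p).comp (Ultrafilter.tendsto_pure_self p)
    have h2 := (Metric.tendsto_nhds.1 h1 (1 / 2) (by norm_num)).exists
    obtain ⟨a, ha⟩ := h2
    exact ⟨U a, ⟨a, rfl⟩, by simpa [U, Real.dist_eq] using ha⟩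
  · rintro ⟨𝒱, h1, h2, h3⟩
    have h4 : ∀ n (γ : W), ∃ V ∈ 𝒱 n, chi (Iio γ) ∈ V := by
      intro n γ
      have : chi (Iio γ) ∈ ⋃₀ 𝒱 n := by rw [h2]; exact mem_univ _
      exact this
    choose V hV1 hV2 using h4
    have h5 : ∀ n γ, ∃ a, V n γ ⊆ U a := by
      intro n γ
      obtain ⟨_, ⟨a, rfl⟩, ha⟩ := (h1 n _ (hV1 n γ)).2
      exact ⟨a, ha⟩
    choose α hα using h5
    have h6 : ∀ n γ, ∃ s : Finset (Ultrafilter W),
        ∀ y : {g : Ultrafilter W → ℝ // Continuous g},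
          (∀ u ∈ s, y.1 u = (chi (Iio γ)).1 u) → y ∈ V n γ :=
      fun n γ => fin_supp (h1 n _ (hV1 n γ)).1 (hV2 n γ)
    choose s hs using h6
    have h7 : ∀ a γ : W, chi (Iio γ) ∈ U a → γ ≤ a := by
      intro a γ hmem
      by_contra hc
      have h8 : Iio γ ∉ p := hp _ ((h.ctbl γ).mono Iio_subset_Iic_self)
      have h9 : Iio γ ∈ (pure a : Ultrafilter W) := Ultrafilter.mem_pure.2 (not_le.1 hc)
      have h10 : |(chi (Iio γ)).1 (pure a) - (chi (Iio γ)).1 p| < 1 / 2 := hmem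
      simp only [chi, Set.indicator_apply, mem_ofPred_eq, h8, h9, if_true, if_false] at h10
      norm_num at h10
    obtain ⟨B, γ, hB1, hB2⟩ := core h s α
    obtain ⟨n, hn⟩ := h3 (chi B)
    apply h.unc
    have h11 : MapsTo (fun a => V n (γ n a)) univ {V ∈ 𝒱 n | chi B ∈ V} := by
      intro a _
      exact ⟨hV1 _ _, hs n _ _ (fun u hu => chi_congr (hB1 n a u hu))⟩
    refine h11.countable_of_injOn ?_ hn
    intro a _ a' _ haa
    have haa' : V n (γ n a) = V n (γ n a') := haa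
    by_contra hne
    rcases hB2 n a a' hne with h' | h'
    · have := h7 _ _ (hα n (γ n a) (haa' ▸ hV2 n (γ n a')))
      exact absurd h' (not_lt.2 this)
    · have := h7 _ _ (hα n (γ n a') (haa' ▸ hV2 n (γ n a)))
      exact absurd h' (not_lt.2 this)

end Pool.Agent.H940Z.Cp
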